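import Pool.Agent.Lib.P761a8f.Taylor

set_option autoImplicit false

namespace Pool.Agent.Results.MP_761a8f_an.StrictDisc

/-- The coefficient of `z ^ n` in the Taylor expansion at `z = 0` of
`(1 - z) ^ (-β) * (1 + x z) ^ α` (principal branches). -/
noncomputable def coeff (α β : ℝ) (n : ℕ) (x : ℂ) : ℂ :=
  iteratedDeriv n (fun z : ℂ => (1 - z) ^ (-(β : ℂ)) * (1 + x * z) ^ (α : ℂ)) 0
    / (n.factorial : ℂ)

/-- Brannan's coefficient conjecture for odd coefficients (`β = 1`), for every real `α > 0`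
and every odd `m`, in the sharp strict form on the closed unit disc: the coefficient at `x = 1`
is real, and the coefficient at every other point of the closed unit disc has strictly smaller
modulus. -/
theorem result :
    ∀ α : ℝ, 0 < α → ∀ m : ℕ, Odd m →
      (coeff α 1 m 1).im = 0 ∧
      ∀ x : ℂ, ‖x‖ ≤ 1 → x ≠ 1 → ‖coeff α 1 m x‖ < (coeff α 1 m 1).re := by
  have key : ∀ (α : ℝ) (m : ℕ) (x : ℂ), coeff α 1 m x = Pool.Agent.Lib.P761a8f.A α m x := by
    intro α m x
    unfold coeff
    rw [← Pool.Agent.Lib.P761a8f.taylor_coeff α x m]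
    simp only [Complex.ofReal_one]
  intro α h0 m hm
  rw [key, Pool.Agent.Lib.P761a8f.A_one]
  refine ⟨Complex.ofReal_im _, ?_⟩
  intro x hx hx1
  rw [key, Complex.ofReal_re]
  exact Pool.Agent.Lib.P761a8f.strict_disc α h0 m hm x hx hx1

end Pool.Agent.Results.MP_761a8f_an.StrictDisc
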